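import Pool.Agent.Helper76.TC.Goals

/-!
# Project TC, packet TM: the metric of the example
-/

set_option autoImplicit false

open Set

namespace Pool.Agent.Helper80.TC.TM

open Pool.Agent.Helper76.TC

theorem t (hME : S_ME) (hTU : S_TU) : S_TM := by
  intro m ε hε
  obtain ⟨_, h2, h3, _⟩ := hME m
  refine ⟨?_, ?_, ?_, ?_, ?_⟩
  · intro x y
    rw [dd, dd, norm_sub_rev, abs_sub_comm]
  · intro x y z
    rw [dd, dd, dd]
    have e1 := norm_sub_le_norm_sub_add_norm_sub x y z
    have e2 := abs_sub_le (uu m x) (uu m y) (uu m z)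
    have e3 := mul_le_mul_of_nonneg_left e1 hε.le
    rw [mul_add] at e3
    linarith
  · intro k x y
    rw [dd, dd, h3, h3, add_sub_add_left_eq_sub]
  · refine ⟨ε, ε + 2, hε, ?_⟩
    intro x y
    rw [dd]
    have e1 := h2 x y
    have e2 := abs_nonneg (uu m x - uu m y)
    constructor
    · linarith
    · rw [add_mul]
      linarith
  · intro x y
    refine (hTU m x y).mono ?_
    rintro z ⟨e1, e2⟩
    rw [Set.mem_ofPred_eq, dd, dd]
    have e3 : |uu m z - uu m x| ≤ |uu m y - uu m x| := Set.abs_sub_left_of_mem_uIcc e2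
    rw [abs_sub_comm (uu m z), abs_sub_comm (uu m y)] at e3
    have e4 := mul_le_mul_of_nonneg_left e1 hε.le
    have e5 := abs_nonneg (uu m x - uu m y)
    linarith

end Pool.Agent.Helper80.TC.TM
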